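import Pool.Agent.H2.ST.Targets

/-!
Module INF: if all maximal ideals of points of a closed set are idempotent modulo its ideal then
the set is finite.
-/

set_option autoImplicit false

namespace Pool.Agent.H14.ST2

open MvPolynomial Pool.Agent.H2.ST

theorem pf_INF : T_INF := by
  intro k σ _ _ J h
  classical
  set B := MvPolynomial σ k ⧸ J with hB
  have hfin : (minimalPrimes B).Finite := minimalPrimes.finite_of_isNoetherianRing B
  set q : MvPolynomial σ k →+* B := Ideal.Quotient.mk J with hq
  have hqs : Function.Surjective q := Ideal.Quotient.mk_surjective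
  have hmax : ∀ p : σ → k, (RingHom.ker (eval p : MvPolynomial σ k →+* k)).IsPrime := by
    intro p
    exact RingHom.ker_isPrime _
  have hcm : ∀ p : σ → k, J ≤ RingHom.ker (eval p : MvPolynomial σ k →+* k) →
      ((RingHom.ker (eval p : MvPolynomial σ k →+* k)).map q).comap q =
        RingHom.ker (eval p : MvPolynomial σ k →+* k) := by
    intro p hp
    rw [Ideal.comap_map_of_surjective q hqs, ← RingHom.ker_eq_comap_bot, hq,
      Ideal.mk_ker, sup_eq_left]
    exact hp
  refine Set.Finite.of_injOn (f := fun p : σ → k =>
    (RingHom.ker (eval p : MvPolynomial σ k →+* k)).map q) (t := minimalPrimes B) ?_ ?_ hfin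
  · intro p hp
    have hp' : J ≤ RingHom.ker (eval p : MvPolynomial σ k →+* k) := hp
    have h1 := h p hp'
    set M : Ideal (MvPolynomial σ k) := RingHom.ker (eval p : MvPolynomial σ k →+* k) with hM
    set N : Ideal B := M.map q with hN
    have hNp : N.IsPrime := by
      have := hmax p
      exact Ideal.map_isPrime_of_surjective hqs (by rw [hq, Ideal.mk_ker]; exact hp')
    have hidem : IsIdempotentElem N := by
      apply le_antisymm
      · exact Ideal.mul_le_left
      · have h2 : M.map q ≤ (M ^ 2 ⊔ J).map q := Ideal.map_mono h1
        rw [Ideal.map_sup, Ideal.map_pow] at h2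
        have h3 : J.map q = ⊥ := by
          rw [hq]
          exact Ideal.map_quotient_self J
        rw [h3, sup_bot_eq, pow_two] at h2
        exact h2
    have hfg : N.FG := IsNoetherian.noetherian N
    obtain ⟨e, he, heN⟩ := (Ideal.isIdempotentElem_iff_of_fg N hfg).1 hidem
    show N ∈ minimalPrimes B
    refine ⟨⟨hNp, bot_le⟩, ?_⟩
    rintro P ⟨hP, -⟩ hPN
    rw [heN, Ideal.span_singleton_le_iff_mem]
    have h4 : e * (1 - e) ∈ P := by
      have : e * (1 - e) = 0 := by
        have h5 : e * e = e := he
        rw [mul_sub, mul_one, h5, sub_self]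
      rw [this]
      exact P.zero_mem
    rcases hP.mem_or_mem h4 with h5 | h5
    · exact h5
    · exfalso
      have h6 : (1 - e) ∈ N := hPN h5
      have h7 : e ∈ N := by
        rw [heN]
        exact Ideal.mem_span_singleton_self e
      apply hNp.ne_top
      rw [Ideal.eq_top_iff_one]
      have := N.add_mem h6 h7
      simpa using this
  · intro p hp p' hp' hpp
    have h1 : RingHom.ker (eval p : MvPolynomial σ k →+* k) =
        RingHom.ker (eval p' : MvPolynomial σ k →+* k) := by
      rw [← hcm p hp, ← hcm p' hp']
      exact congrArg (Ideal.comap q) hpp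
    funext i
    have h2 : (X i - C (p i) : MvPolynomial σ k) ∈
        RingHom.ker (eval p' : MvPolynomial σ k →+* k) := by
      rw [← h1, RingHom.mem_ker]
      simp
    rw [RingHom.mem_ker] at h2
    simp only [map_sub, eval_X, eval_C] at h2
    exact (sub_eq_zero.1 h2).symm

end Pool.Agent.H14.ST2
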