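import Pool.Agent.H2.ST.Targets

/-!
Module PLD: the bracket with the generator of the kernel.
-/

set_option autoImplicit false

namespace Pool.Agent.H14.ST2

open MvPolynomial Pool.Agent.H2.ST

theorem br_aeval {k : Type} [Field k] {m : ℕ} (p g : Pol k m) (Q : Polynomial k) :
    br (Polynomial.aeval p Q) g = Polynomial.aeval p Q.derivative * br p g := by
  induction Q using Polynomial.induction_on' with
  | add P Q hP hQ =>
    rw [map_add, add_br, hP, hQ, Polynomial.derivative_add, map_add, add_mul]
  | monomial n c =>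
    rw [Polynomial.derivative_monomial, Polynomial.aeval_monomial, Polynomial.aeval_monomial,
      MvPolynomial.algebraMap_eq, mul_br, C_br, br_anti (p ^ n), br_pow, br_anti g p,
      C_mul, map_natCast]
    ring

theorem iter_br {k : Type} [Field k] {m : ℕ} (p φ a : Pol k m)
    (h : ∀ g, br φ g = a * br p g) (ha : br p a = 0) (g : Pol k m) (n : ℕ) :
    (br φ)^[n] g = a ^ n * (br p)^[n] g := by
  induction n with
  | zero => simp
  | succ n ih =>
    rw [Function.iterate_succ_apply', Function.iterate_succ_apply', ih, h, br_mul, br_pow, ha]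
    ring

theorem pf_PLD : T_PLD := by
  intro k _ _ _ m K φ p hP hpK hφ
  rw [Algebra.adjoin_singleton_eq_range_aeval] at hφ
  obtain ⟨Q, hQ⟩ := hφ
  have hQ' : φ = Polynomial.aeval p Q := hQ.symm
  have h1 : ∀ g, br φ g = Polynomial.aeval p Q.derivative * br p g := by
    intro g
    rw [hQ']
    exact br_aeval p g Q
  have ha : br p (Polynomial.aeval p Q.derivative) = 0 := by
    rw [br_anti, br_aeval, br_self, mul_zero, neg_zero]
  have hne : Polynomial.aeval p Q.derivative ≠ 0 := by
    intro h0
    apply hP.nc
    apply const_of_br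
    intro s
    rw [h1, h0, zero_mul]
  refine ⟨?_, ?_⟩
  · intro g hg
    obtain ⟨n, hn⟩ := hP.nl g hg
    refine ⟨n, ?_⟩
    rw [iter_br p φ _ h1 ha] at hn
    exact (mul_eq_zero.1 hn).resolve_left (pow_ne_zero n hne)
  · intro g hg h0
    rw [h1, h0, mul_zero]

end Pool.Agent.H14.ST2
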